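import Pool.Agent.helper48.SO.Spec

/-! Row FIR of project SO: the recursion of the abelian value. -/

set_option autoImplicit false

namespace SOL

open Finset

theorem FIR_fac (p k n : ℕ) (hp : p.Prime) (hn : 0 < n) (ℓ : ℕ) :
    (p ^ k * n).factorization ℓ = (if ℓ = p then k else 0) + n.factorization ℓ := by
  rw [Nat.factorization_mul (pow_ne_zero k hp.ne_zero) hn.ne', Finsupp.add_apply,
    hp.factorization_pow, Finsupp.single_apply]
  by_cases h : p = ℓ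
  · rw [if_pos h, if_pos h.symm]
  · rw [if_neg h, if_neg (fun h' => h h'.symm)]

/-- Row FIR. -/
theorem FIR : FIR_stmt := by
  intro S n p k t hp hpS _ hn ht
  have hq : (1 : ℝ) ≤ ((p ^ k : ℕ) : ℝ) := by
    exact_mod_cast Nat.one_le_pow k p hp.pos
  have htp : 1 ≤ t p := ht p
  have hD : 0 < (((p ^ k : ℕ) : ℝ) - 1) * t p + 1 := by
    have : 0 ≤ (((p ^ k : ℕ) : ℝ) - 1) * t p := mul_nonneg (by linarith) (by linarith)
    linarith
  unfold Fi
  rw [← Finset.mul_prod_erase S _ hpS, ← Finset.mul_prod_erase S _ hpS, ← mul_assoc]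
  have h1 : ∏ ℓ ∈ S.erase p, (1 + ((ℓ : ℝ) ^ (n.factorization ℓ) - 1) * nw t p (p ^ k) ℓ) =
      ∏ ℓ ∈ S.erase p, (1 + ((ℓ : ℝ) ^ ((p ^ k * n).factorization ℓ) - 1) * t ℓ) := by
    apply Finset.prod_congr rfl
    intro ℓ hℓ
    have hne : ℓ ≠ p := (Finset.mem_erase.1 hℓ).1
    rw [FIR_fac p k n hp hn ℓ, if_neg hne, zero_add]
    unfold nw
    rw [Function.update_of_ne hne]
  have h2 : ((((p ^ k : ℕ) : ℝ) - 1) * t p + 1) *
      (1 + ((p : ℝ) ^ (n.factorization p) - 1) * nw t p (p ^ k) p) =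
      1 + ((p : ℝ) ^ ((p ^ k * n).factorization p) - 1) * t p := by
    rw [FIR_fac p k n hp hn p, if_pos rfl]
    unfold nw
    rw [Function.update_self, pow_add]
    have e1 : ((p : ℝ) ^ k) = ((p ^ k : ℕ) : ℝ) := by push_cast; ring
    rw [e1]
    obtain ⟨q, hq'⟩ : ∃ q : ℝ, q = ((p ^ k : ℕ) : ℝ) := ⟨_, rfl⟩
    rw [← hq'] at hD ⊢
    have hD' : (q - 1) * t p + 1 ≠ 0 := hD.ne'
    field_simp
    ring
  rw [h2, h1]

end SOL
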